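import Pool.Agent.V5helper92.HC.Rigid

/-!
# Hartshorne's conjecture on Chow groups of hypersurfaces: constant families

Let `d ≥ 3`, and let `Y` be a smooth plane curve of degree `d`, for instance the Fermat curve. Say that the
families of cycles of codimension `i` on `X` over `Y` are constant (`Rigid`) if for every class `c` in
`A^i(X × Y)` the restriction of `c` to `X × t` does not depend on the point `t` of `Y`. This is so if
the classes in `A^i(X)` which are algebraically equivalent to zero vanish, and also if `A^i(X)` has a
countable dimension over `ℚ`.

Hartshorne's conjecture says that `A^i(X) = ℚ h^i` for all smooth hypersurfaces `X` of dimension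
`n > 2 i`. **Theorem.** It holds in degree `d` if and only if for all smooth hypersurfaces `X` of degree `d`
and dimension `n ≥ 2 i` the families of cycles of codimension `i` on `X` over `Y` are constant. In
particular it holds if `A^i(X)` has a countable dimension for all `i ≤ n / 2`.

More generally, for every `c ≥ 0`: `A^i(X) = ℚ h^i` for all `X` of dimension `n ≥ 2 i + c + 1` if and only
if the families of cycles of codimension `i` on `X` over `Y` are constant, for all `X` of dimension
`n ≥ 2 i + c`. For one hypersurface `X : F(x) = 0` of dimension `n` let `J` be the hypersurface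
`F(x) + G(y) = 0`, of dimension `n + 3`, where `Y : G(y) = 0`, and let `i ≤ n`. If
`A^(i+1)(J) = ℚ h^(i+1)`, then the families on `X` in codimension `i` are constant. If the families on `J`
in codimension `i + 2` are constant, then `A^i(X) = ℚ h^i` up to classes which are algebraically
equivalent to zero, and `A^i(X) = ℚ h^i` if the families on `X` in codimension `i` are constant as well.

Proof. The join `F(x) = 0 = G(y)` of `X` and `Y` is a divisor in `J`, cut by a hypersurface of degree
`d`, with the multiplicity `d` along `X` and `Y`. Let `Γ : A^j(X × Y) → A^(j+1)(J)` be the map which maps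
a cycle to its join, and `Γ^*` its transpose. The self-intersection formula on the blow-up of `J` in
`X ⊔ Y` gives `Γ^* Γ α = - d α` for the classes `α` which are orthogonal to the multiples of the
hyperplane classes.

(a) A family of cycles of codimension `i` on `X` over `Y` becomes orthogonal to the hyperplane classes
after subtraction of a constant family and of classes in `A^(i-1)(X) × A^1(Y)`, which do not change the
members. Its join in `A^(i+1)(J)` is a multiple of `h^(i+1)` by assumption (if `n ≥ 2 i + c`, then
`dim J = n + 3 ≥ 2 (i + 1) + c + 1`). Hence the family is constant.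

(b) Let `a` be a primitive class in `A^i(X)`, and let `t`, `t_0` be points of `Y`. The joins of
`a × (t - t_0)` are the members of a family in codimension `i + 2` on `J`, with the member `0` at `t_0`,
so that they are zero if the families on `J` are constant: `a × t = a × t_0` for all `t`. By the theorem
of Bloch and Srinivas the family of all these classes is supported on finitely many fibres:
`δ_* (a × Y) - a × t_0 × Y = ∑_j c_j × t_j` in `A^(i+1)(X × Y × Y)`, with `δ(x, y) = (x, y, y)`. The
projection to `X × Y` gives `a × Y = ∑_j c_j`, and the restriction to the diagonal gives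
`(d (3 - d) - 1) a = ∑_j c_j(t_j)`, since the diagonal of `Y` has the self-intersection `d (3 - d)`.
Hence `-(d - 1)(d - 2) a = ∑_j (c_j(t_j) - c_j(t_0))`.

The Chow groups enter through their standard properties, `Chow`, `JoinGeometry`
(`Pool/Agent/V5helper92/HC/`): data of Chow rings with pull-backs, push-forwards and the projection
formula, for the category of smooth projective irreducible varieties; base change for products,
transversal intersections, self-intersection formulas, blow-ups, projective bundles; the theorem of Bloch
and Srinivas for families over a curve; and the fact that a family with countably many members in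
`A^i(X)` is constant.
-/

set_option autoImplicit false

open CategoryTheory MonoidalCategory CartesianMonoidalCategory Pool.Agent.V5helper92.HC

namespace Pool.Agent.Results.MP_4be043_ag.ConstantFamilies

universe u w

section

variable {V : Type u} [Category.{w} V] [CartesianMonoidalCategory V] {C : Chow V} {d : ℕ}
  (G : Hypersurfaces C d)

/-- Hartshorne's conjecture in degree `d`: `A^i(X) = ℚ h^i` for all smooth hypersurfaces `X` of degree `d`
and dimension `n ≥ 1` and all `i < n / 2`. -/
def Hartshorne : Prop :=
  ∀ (σ : Type) [Fintype σ] (S : SForm σ d) (i : ℕ), 2 * i < S.dim → G.Triv S i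

/-- `A^i(X) = ℚ h^i` for all smooth hypersurfaces `X` of degree `d` and dimension `n ≥ 2 i + c`. -/
def TrivInGap (c : ℕ) : Prop :=
  ∀ (σ : Type) [Fintype σ] (S : SForm σ d) (i : ℕ), 2 * i + c ≤ S.dim → G.Triv S i

/-- The families over `Y` of cycles of codimension `i` on `X` are constant, for all smooth hypersurfaces
`X` of degree `d` and dimension `n ≥ 2 i + c`. -/
def RigidInGap (Y : V) (c : ℕ) : Prop :=
  ∀ (σ : Type) [Fintype σ] (S : SForm σ d) (i : ℕ), 2 * i + c ≤ S.dim → C.Rigid Y (G.X S) i

/-- Every class of codimension `i` on the hypersurface `X` of `S` is a rational multiple of `h ^ i` up to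
classes which are algebraically equivalent to zero by families over `Y`. -/
def TrivModAlg (Y : V) {σ : Type} [Fintype σ] (S : SForm σ d) (i : ℕ) : Prop :=
  ∀ a : C.A (G.X S), C.Codim i a → ∃ q : ℚ, a - q • G.h S ^ i ∈ C.AlgZero Y (G.X S) i

end

/-- `A^i(X)` has a countable dimension over `ℚ`. -/
def CountableDim {V : Type u} [Category.{w} V] (C : Chow V) (X : V) (i : ℕ) : Prop :=
  Module.rank ℚ (C.gr X i) ≤ Cardinal.aleph0

/-- **Constant families.** -/
theorem result {V : Type u} [Category.{w} V] [CartesianMonoidalCategory V] {C : Chow V}
    {dim : V → ℕ} {d : ℕ} (hd : 3 ≤ d) (G : Hypersurfaces C d) (hG : JoinGeometry dim G)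
    {τ : Type} [Fintype τ] (T : SForm τ d) (hT : T.dim = 1) :
    (Hartshorne G ↔ RigidInGap G (G.X T) 0) ∧
    (∀ c : ℕ, TrivInGap G (c + 1) ↔ RigidInGap G (G.X T) c) ∧
    (∀ (σ : Type) [Fintype σ] (S : SForm σ d) (i : ℕ), i ≤ S.dim →
      (G.Triv (S.add T) (i + 1) → C.Rigid (G.X T) (G.X S) i) ∧
      (C.Rigid (G.X T) (G.X (S.add T)) (i + 2) →
        TrivModAlg G (G.X T) S i ∧ (C.Rigid (G.X T) (G.X S) i → G.Triv S i))) ∧
    ∀ (X : V) (i : ℕ), CountableDim C X i → C.Rigid (G.X T) X i := by
  have key : ∀ c : ℕ, TrivInGap G (c + 1) ↔ RigidInGap G (G.X T) c := fun c =>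
    ⟨fun h σ _ S i hi => rigid_of_triv_gap hG hT c h σ S i hi,
      fun h σ _ S i hi => triv_of_rigid_gap hG hd hT c h σ S i hi⟩
  exact ⟨⟨fun h => (key 0).1 fun σ _ S i hi => h σ S i (by omega),
      fun h σ _ S i hi => (key 0).2 h σ S i (by omega)⟩, key,
    fun σ _ S i hi => ⟨fun h => rigid_of_triv_add hG hT hi h,
      fun hR => ⟨fun a ha => sub_mem_algZero hG hd hT hi hR a ha,
        fun hX => triv_of_rigid hG hd hT hi hR hX⟩⟩,
    fun X i h => rigid_of_rank (hG.curve T hT) h⟩

end Pool.Agent.Results.MP_4be043_ag.ConstantFamilies
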