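import Pool.Agent.V5helper89.HCG.Main

set_option autoImplicit false

/-!
# MP_4be043_ag: reduction of Hartshorne's conjecture to the critical dimension `n = 2 i + 1`, to almost
diagonal hypersurfaces and to the Abel-Jacobi map in dimension `2 i - 1`

`X` denotes smooth complex hypersurfaces, `A^i(X)` the Chow groups with rational coefficients. The
published facts on Chow groups which are used are the fields of `ChowFacts`; the existence of Lefschetz
pencils and a case of Bertini's theorem are `LefschetzPencilsExist` and `SmoothCoversExist`.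

(1) If `A^(i')(X) = ℚ[h^(i')]` for all `X` of one degree `d' ≥ 2` and of the critical dimension
`2 i' + 1`, then `A^i(X) = ℚ[h^i]` for all `X` of any degree `d` dividing `d'` and any dimension
`n > 2 i`, for all `i ≤ i'`. Hence a counterexample for `(d, n, i)` gives counterexamples in dimension
`2 i' + 1`, codimension `i'` and degree `d'` for all `i' ≥ i` and all multiples `d' ≥ 2` of `d`, and
Hartshorne's conjecture follows from its cases of critical dimension with `i` arbitrarily large and `d`
arbitrarily divisible.

(2) Hartshorne's conjecture holds if and only if for all `d` and `c ≥ 2` there are arbitrarily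
divisible `e` and arbitrarily large `r` such that `A^(c+r)(X) = ℚ[h^(c+r)]` for all `X` of the form
`F (x_0^e, …, x_(2c+2)^e) + y_1^(e d) + … + y_(2r)^(e d) = 0` with `F` of degree `d` (the dimension of
`X` is `2 (c + r) + 1`).

(3) For `i` and `d` fixed: `A^c(X) = ℚ[h^c]` for all `X` of degree `d`, `dim X > 2 c` and `c ≤ i`, if for
all `c` with `2 ≤ c ≤ i` there are `e` and `r` as in (2), or such that homological and rational
equivalence agree for codimension `c + r` on the hypersurfaces
`F (x_0^e, …, x_(2c+1)^e) + y_1^(e d) + … + y_(2r)^(e d) = 0`, of dimension `2 (c + r)`.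

(4) The same holds if `d ≥ 3` and for all `c` with `2 ≤ c ≤ i` there are `e` and `r` such that this is true
or that the Abel-Jacobi map is injective modulo torsion in codimension `c + r` on the hypersurfaces
`F (x_0^e, …, x_(2c)^e) + y_1^(e d) + … + y_(2r)^(e d) = 0`, of dimension `2 (c + r) - 1`. Moreover
homological and rational equivalence then agree for codimension `c` on all `X` of dimension `2 c` and
degree `d`, `1 ≤ c ≤ i`.

(5) Hartshorne's conjecture follows if this is true for all `d ≥ 3` and all `c ≥ 2`.

Ideas. *Pencils*: for a Lefschetz pencil on `X` every class in `A^c(X)` which vanishes on the geometric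
generic member (a hypersurface over the algebraic closure of `ℂ(t)`, a field isomorphic to `ℂ`) is a sum
of push-forwards of classes in `A^(c-1)` of the members, and these have at most one node. In a double
induction, on the dimension and on the codimension, for smooth and for nodal hypersurfaces together,
one never leaves the range `n > 2 i`. *Cones*: `X` is contained in
`X' = {F(x) + y_1^d + y_2^d = 0}`, and for a root `ε` of `ε^d = -1` the cones with the vertex
`(0, ε, 1)` over the cycles on `X` are cycles on `X'`; the cones for two different roots meet in the cycle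
itself. So `A^i(X)` is a direct summand of `A^(i+1)(X')`, and `n + 2 - 2 (i + 1) = n - 2 i`.
*Covers*: `A^i` of the hypersurface of `F` is a direct summand of `A^i` of that of
`F (x_0^e, …, x_(n+1)^e)`.
-/

namespace Pool.Agent.Results.MP_4be043_ag.CriticalDimension

open Pool.Agent.V5helper89.HCG

/-- **The critical dimension, almost diagonal hypersurfaces, and the Abel-Jacobi map.** -/
theorem result (T : ChowData) (hT : ChowFacts T) (hL : LefschetzPencilsExist)
    (hB : SmoothCoversExist) :
    (∀ d' i' : ℕ, 2 ≤ d' → T.TrivialFor d' (2 * i' + 1) i' →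
      ∀ d n i : ℕ, d ∣ d' → i ≤ i' → 2 * i < n → T.TrivialFor d n i) ∧
    (T.Hartshorne ↔ ∀ d c E R : ℕ, 1 ≤ d → 2 ≤ c → 1 ≤ E →
      ∃ e r : ℕ, 1 ≤ e ∧ E ∣ e ∧ R ≤ r ∧ T.SpecialTrivial d c e r) ∧
    (∀ d i : ℕ, 1 ≤ d →
      (∀ c, 2 ≤ c → c ≤ i → ∃ e r : ℕ, 1 ≤ e ∧ 2 ≤ e * d ∧
        (T.SpecialTrivial d c e r ∨ T.SpecialHom d c e r)) →
      ∀ c n : ℕ, c ≤ i → 2 * c < n → T.TrivialFor d n c) ∧
    (∀ d i : ℕ, 3 ≤ d →
      (∀ c, 2 ≤ c → c ≤ i → ∃ e r : ℕ, 1 ≤ e ∧
        (T.SpecialHom d c e r ∨ T.SpecialAbelJacobi d c e r)) →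
      (∀ c, 1 ≤ c → c ≤ i → T.HomInjectiveFor d c) ∧
      ∀ c n : ℕ, c ≤ i → 2 * c < n → T.TrivialFor d n c) ∧
    ((∀ d c : ℕ, 3 ≤ d → 2 ≤ c → ∃ e r : ℕ, 1 ≤ e ∧
      (T.SpecialHom d c e r ∨ T.SpecialAbelJacobi d c e r)) → T.Hartshorne) := by
  refine ⟨fun d' i' hd' h d n i hdd hi hn => main_critical hT hL hB hd' h hdd hi hn,
    main_iff hT hL hB, fun d i hd h => main_special hT hL hB hd h, fun d i hd h => ?_,
    main_hartshorne_of_abel_jacobi hT hL hB⟩
  have h1 := main_abel_jacobi hT hL hB hd h
  exact ⟨h1, all_of_mixed hT hL (by omega) fun c hc hc' => Or.inr (h1 c (by omega) hc')⟩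

end Pool.Agent.Results.MP_4be043_ag.CriticalDimension
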