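import Pool.Agent.V5helper92.HC.Kuenneth3

/-!
# Hartshorne's conjecture on Chow groups of hypersurfaces: products

Let `F_1, ..., F_r` be smooth forms of degree `d` over the complex numbers, in disjoint sets of variables,
let `X_k : F_k(x_k) = 0` be the hypersurfaces, of arbitrary dimensions `n_k ≥ 1`, with the hyperplane
classes `h_k`, and let `J : F_1(x_1) + ... + F_r(x_r) = 0`, of dimension `∑ n_k + 2 (r - 1)`. A class on
the product `X_1 × ... × X_r` is called decomposable if it is a sum of classes `h_k ^ j · π_k^* a`, where
`π_k` is the projection which forgets the factor `X_k`.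

**Theorem.** (1) If `A^(i+r-1)(J) = ℚ h^(i+r-1)`, then all classes of codimension `i` on
`X_1 × ... × X_r` are decomposable.

(2) Let `d ≥ 3`. The following are equivalent for every `c ≥ 0`; for `c = 0`, (a) is Hartshorne's conjecture
in degree `d`:

(a) `A^i(X) = ℚ h^i` for all smooth hypersurfaces `X` of degree `d` and dimension `n ≥ 2 i + c + 1`;
(b) all classes of codimension `i` on all finite products of smooth hypersurfaces of degree `d` of
    dimension `≥ 2 i + c + 1` are decomposable;
(c) the families of cycles of codimension `i` on `X` over `Y` are constant, for all smooth hypersurfaces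
    `X` and `Y` of degree `d` and dimensions `n` and `m`, `n + m ≥ 2 i + c + 1`;
(d) all classes of codimension `i` on `X × Y` are decomposable, for all smooth hypersurfaces `X` of
    degree `d` and dimension `n ≥ 2 i + c`, and one smooth plane curve `Y` of degree `d`.

So Hartshorne's conjecture implies its analogue for all products of hypersurfaces of degree `d`: in
codimension `i < n / 2` all classes come from the products of fewer factors. For instance families of
points on `X` over a hypersurface `Y` of the same degree are constant, as soon as `dim Y > dim X`. And it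
is equivalent to the special case `X × Y` for one plane curve `Y`.

Proof. Let `X : F = 0`, `Y : G = 0` and `J : F(x) + G(y) = 0`, and let `Z` be any variety. The join
`F(x) = 0 = G(y)` is a divisor in `J`; let `Γ : A^i(X × Y × Z) → A^(i+1)(J × Z)` be the map which maps a
cycle to its join, and `Γ^*` its transpose. The self-intersection formula on `J' × Z`, where `J'` is the
blow-up of `J` in `X ⊔ Y`, gives `Γ^* Γ w = - d w` for the classes `w` which are orthogonal to the powers
of the hyperplane classes of `X` and of `Y`. Every class of codimension `i` on `X × Y × Z` is the sum of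
such a class `w` and of decomposable classes. If all classes of codimension `i + 1` on `J × Z` are
decomposable, then `Γ w` is decomposable, and so is `Γ^* Γ w`, by `Γ^* (h_J^j · a) = ∑ h_X^p h_Y^q a`
(`p + q = j - 1`) for classes `a` on `Z`, and by base change. This gives (1) by induction on `r`, and
so (a) implies (b). The restrictions of a decomposable class on `X × Y` to `X × t` do not depend on the
point `t` of `Y`, so (b) implies (c), and (d) implies the special case of (c) for the plane curve `Y`.
This special case implies (a): see `ConstantFamilies`.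

The Chow groups enter through their standard properties, `Chow`, `ProductGeometry`, `JoinGeometry`
(`Pool/Agent/V5helper92/HC/`), see `ConstantFamilies`; the properties of the joins are also used for the
products with a variety `Z` (`Join.Times`).
-/

set_option autoImplicit false

open CategoryTheory MonoidalCategory CartesianMonoidalCategory Pool.Agent.V5helper92.HC

namespace Pool.Agent.Results.MP_4be043_ag.ProductsOfHypersurfaces

universe u w

section

variable {V : Type u} [Category.{w} V] [CartesianMonoidalCategory V] {C : Chow V} {d : ℕ}
  (G : Hypersurfaces C d)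

/-- `A^i(X) = ℚ h^i` for all smooth hypersurfaces `X` of degree `d` and dimension `n ≥ 2 i + c`. For `c = 1`
this is Hartshorne's conjecture in degree `d`. -/
def TrivInGap (c : ℕ) : Prop :=
  ∀ (σ : Type) [Fintype σ] (S : SForm σ d) (i : ℕ), 2 * i + c ≤ S.dim → G.Triv S i

/-- All classes of codimension `i` on the products `X_1 × ... × X_r`, `r ≥ 1`, of smooth hypersurfaces of
degree `d` of dimension `≥ 2 i + c` are decomposable. -/
def KuennethInGap (dim : V → ℕ) (c : ℕ) : Prop :=
  ∀ L : List (BForm d), L ≠ [] → ∀ i : ℕ, 2 * i + c ≤ dim (prod G L) → Kuenneth G L i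

/-- The families over `Y` of cycles of codimension `i` on `X` are constant, for all smooth hypersurfaces
`X` and `Y` of degree `d` with `dim X + dim Y ≥ 2 i + c`. -/
def RigidInGap (c : ℕ) : Prop :=
  ∀ (F F₂ : BForm d) (i : ℕ), 2 * i + c ≤ F.form.dim + F₂.form.dim →
    C.Rigid (G.X F₂.form) (G.X F.form) i

/-- All classes of codimension `i` on `X × Y` are decomposable, for all smooth hypersurfaces `X` of degree
`d` and dimension `n ≥ 2 i + c`, where `Y` is the hypersurface of `F₂`. -/
def KuennethOver (F₂ : BForm d) (c : ℕ) : Prop :=
  ∀ (F : BForm d) (i : ℕ), 2 * i + c ≤ F.form.dim → Kuenneth G [F, F₂] i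

end

/-- **Products of hypersurfaces.** -/
theorem result {V : Type u} [Category.{w} V] [CartesianMonoidalCategory V] {C : Chow V}
    {dim : V → ℕ} {d : ℕ} (G : Hypersurfaces C d) (hG : ProductGeometry dim G)
    (hJ : JoinGeometry dim G) :
    (∀ (F : BForm d) (L : List (BForm d)) (i : ℕ),
      G.Triv (total F L).form (i + L.length) → Kuenneth G (F :: L) i) ∧
    ∀ T : BForm d, T.form.dim = 1 → 3 ≤ d → ∀ c : ℕ,
      List.TFAE [TrivInGap G (c + 1), KuennethInGap G dim (c + 1), RigidInGap G (c + 1),
        KuennethOver G T c] := by
  refine ⟨fun F L i h => kuenneth_of_triv hG L F i h, fun T hT hd c => ?_⟩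
  have h12 : TrivInGap G (c + 1) → KuennethInGap G dim (c + 1) := by
    intro h L hL i hi
    obtain ⟨F, L, rfl⟩ := List.exists_cons_of_ne_nil hL
    refine kuenneth_of_triv hG L F i (h _ _ _ ?_)
    rw [total_dim_eq hG]
    omega
  have h23 : KuennethInGap G dim (c + 1) → RigidInGap G (c + 1) := by
    intro h F F₂ i hi
    refine rigid_of_kuenneth hG F F₂ i (h _ (by simp) i ?_)
    rw [prod_dim hG, List.map_cons, List.sum_cons, List.map_cons, List.sum_cons, List.map_nil,
      List.sum_nil]
    omega
  have h24 : KuennethInGap G dim (c + 1) → KuennethOver G T c := by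
    intro h F i hi
    refine h _ (by simp) i ?_
    rw [prod_dim hG, List.map_cons, List.sum_cons, List.map_cons, List.sum_cons, List.map_nil,
      List.sum_nil, hT]
    omega
  have key : (∀ (σ : Type) [Fintype σ] (S : SForm σ d) (i : ℕ), 2 * i + c ≤ S.dim →
      C.Rigid (G.X T.form) (G.X S) i) → TrivInGap G (c + 1) :=
    fun h σ _ S i hi => triv_of_rigid_gap hJ hd hT c h σ S i hi
  have h31 : RigidInGap G (c + 1) → TrivInGap G (c + 1) := by
    intro h
    refine key fun σ _ S i hi => h ⟨σ, S⟩ T i ?_
    change 2 * i + (c + 1) ≤ S.dim + T.form.dim
    omega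
  have h41 : KuennethOver G T c → TrivInGap G (c + 1) := by
    intro h
    exact key fun σ _ S i hi => rigid_of_kuenneth hG ⟨σ, S⟩ T i (h ⟨σ, S⟩ i hi)
  tfae_have 1 → 2 := h12
  tfae_have 2 → 3 := h23
  tfae_have 2 → 4 := h24
  tfae_have 3 → 1 := h31
  tfae_have 4 → 1 := h41
  tfae_finish

end Pool.Agent.Results.MP_4be043_ag.ProductsOfHypersurfaces
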