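import Pool.Agent.V5helper92.HC.Main

/-!
# Hartshorne's conjecture on Chow groups of hypersurfaces: small defects vanish

For a smooth form `F` of degree `d ≥ 2` in `n + 2 ≥ 3` variables let `X` be the smooth hypersurface
`F = 0`, of dimension `n`, and let `δ(X, i)` be the dimension of `A^i(X) / ℚ h^i`, a cardinal number.
Hartshorne's conjecture says that `δ(X, i) = 0` for `i < n / 2`. Let `X_m` be the smooth hypersurface
`F(x) + y_1 ^ d + ⋯ + y_(2m) ^ d = 0`, of dimension `n + 2 m`.

1. For all `i ≤ n` and all `m`: `(d - 1) ^ (2 m) δ(X, i) ≤ (m + 1) ^ (d - 1) δ(X_m, i + m)`. So one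
   counterexample gives counterexamples in the dimensions `n + 2 m`, with a defect which is, up to a
   power of `m`, as large as the middle Betti number of `X_m`.
2. `A^i(X) = ℚ h^i` if and only if `(m + 1) ^ (d - 1) δ(X_m, i + m) < (d - 1) ^ (2 m)` for one `m`.
3. Hartshorne's conjecture in degree `d` (all dimensions) is equivalent to a weak upper bound in
   infinitely many even and infinitely many odd dimensions `n`:
   `(n + 1) ^ d δ(X, i) ≤ (d - 1) ^ n` for all smooth `X` of dimension `n` and degree `d` and all
   `i < n / 2` (the middle Betti number of `X` is about `(d - 1) ^ (n + 2) / d`).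

Proof. The section of `J : F(x) + y ^ d + z ^ d = 0` by the hyperplane `y = ζ z`, `ζ ^ d = -1`, is a
cone over `X`. Let `Γ_ζ : A^i(X) → A^(i+1)(J)` be the map which maps a cycle to the cone over it, and
`Γ_ζ^*` its transpose. The self-intersection formula on the blow-up of the vertex of the cone, where
`F = 0` has multiplicity `d`, gives `Γ_ζ^* Γ_ζ = 1 - d` modulo `ℚ h^i`, and `Γ_ζ'^* Γ_ζ = 1` for
`ζ' ≠ ζ`. Hence, for `0 < a < d`, the combination of the `Γ_ζ` with the coefficients `ψ(a k)`,
`ζ = ζ_0 ψ(k)`, embeds the defect space of `X` in the part of the one of `J` on which the roots of unity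
act on `y` and `z` by the characters `a` and `-a`. Iterating this, and permuting the new variables, the
part of the defect space of `X_m` belonging to the characters `(a_j)` has dimension at least
`δ(X, i)` whenever the `a_j ≠ 0` can be paired off to opposite pairs; by the inequality of Cauchy
and Schwarz there are at least `(d - 1) ^ (2 m) / (m + 1) ^ (d - 1)` such `(a_j)`.

The Chow groups enter through their standard properties, `Chow`, `Cone`, `HypGeometry`
(`Pool/Agent/V5helper92/HC/Chow.lean`): data of Chow rings with pull-backs, push-forwards and the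
projection formula, and for the hyperplane sections which are cones: the self-intersection formula,
the blow-up of a point, the projective bundle of the lines of the cone, transversality.
-/

set_option autoImplicit false

open CategoryTheory Pool.Agent.V5helper92.HC

namespace Pool.Agent.Results.MP_4be043_ag.SmallDefectsVanish

universe u w

/-- **Small defects vanish.** -/
theorem result {V : Type u} [Category.{w} V] {C : Chow V} {d : ℕ} (G : HypGeometry C d) :
    (∀ (σ : Type) [Fintype σ] (S : SForm σ d) (i : ℕ), i ≤ S.dim →
      (∀ m : ℕ, (((d - 1) ^ (2 * m) : ℕ) : Cardinal) * G.defect S i ≤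
        (((m + 1) ^ (d - 1) : ℕ) : Cardinal) * G.defect (S.ext (Fin m × Bool)) (i + m)) ∧
      (G.Triv S i ↔ ∃ m : ℕ, (((m + 1) ^ (d - 1) : ℕ) : Cardinal) *
        G.defect (S.ext (Fin m × Bool)) (i + m) < (((d - 1) ^ (2 * m) : ℕ) : Cardinal))) ∧
    (2 ≤ d → (G.Hartshorne ↔
      ∀ n N : ℕ, ∃ k, N ≤ k ∧ ∀ (σ : Type) [Fintype σ] (S : SForm σ d), S.dim = n + 2 * k →
        ∀ i, 2 * i < S.dim → (((S.dim + 1) ^ d : ℕ) : Cardinal) * G.defect S i ≤
          (((d - 1) ^ S.dim : ℕ) : Cardinal))) :=
  ⟨fun _ _ S _ hi => ⟨fun m => growth' S hi m, triv_iff_small S hi⟩, hartshorne_iff⟩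

end Pool.Agent.Results.MP_4be043_ag.SmallDefectsVanish
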